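import Pool.Agent.Lib.MP_6bc78b_nt.GP.Iface
import Pool.Agent.Lib.MP_6bc78b_nt.MS.P1.K.GammaLine

/-! Project GP: module GAMI, Mellin inversion for the exponential with complex argument. -/

set_option autoImplicit false

open Complex Filter Topology MeasureTheory Set
open scoped FourierTransform

namespace Pool.Agent.Lib.MP_6bc78b_nt.GP.H82

open Pool.Agent.Lib.MP_6bc78b_nt.MS.K Pool.Agent.Lib.MP_6bc78b_nt.MS.P1

/-- `|Γ(c + it)| ≤ C e^{-θt}` for every `|θ| < π / 2`. -/
theorem gamma_bd {c θ : ℝ} (hc : 0 < c) (hθ : |θ| < Real.pi / 2) :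
    ∃ C : ℝ, 0 ≤ C ∧ ∀ t : ℝ, ‖Complex.Gamma (c + t * I)‖ ≤ C * Real.exp (-(θ * t)) := by
  have hcos : 0 < Real.cos θ := by
    rw [abs_lt] at hθ
    exact Real.cos_pos_of_mem_Ioo hθ
  obtain ⟨a, ha⟩ : ∃ a : ℂ, a = cexp (θ * I) := ⟨_, rfl⟩
  have hare : a.re = Real.cos θ := by
    rw [ha, Complex.exp_ofReal_mul_I_re]
  have hlog : Complex.log a = θ * I := by
    rw [ha]
    have hpi := Real.pi_pos
    rw [abs_lt] at hθ
    apply Complex.log_exp
    · simp
      linarith [hθ.1]
    · simp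
      linarith [hθ.2]
  refine ⟨∫ v : ℝ, Real.exp (c * v - Real.cos θ * Real.exp v), by positivity, fun t => ?_⟩
  have hs : 0 < ((c : ℂ) + t * I).re := by simpa using hc
  have h1 := gammaLine (s := c + t * I) (a := a) hs (by rw [hare]; exact hcos)
  have h2 : ‖∫ v : ℝ, cexp ((c + t * I) * v - a * Real.exp v)‖ ≤
      ∫ v : ℝ, Real.exp (c * v - Real.cos θ * Real.exp v) := by
    refine (norm_integral_le_integral_norm _).trans (le_of_eq ?_)
    congr 1
    funext v
    rw [norm_cexp_line, hare]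
    simp
  rw [h1, norm_mul, Complex.norm_exp, hlog] at h2
  have h3 : (-(((c : ℂ) + t * I) * (θ * I))).re = θ * t := by
    simp [Complex.mul_re]
    ring
  rw [h3] at h2
  rw [Real.exp_neg, ← div_eq_mul_inv, le_div_iff₀ (Real.exp_pos _)]
  linarith

theorem cont_gamma_line {c : ℝ} (hc : 0 < c) :
    Continuous (fun t : ℝ => Complex.Gamma (c + t * I)) := by
  rw [continuous_iff_continuousAt]
  intro t
  have h1 : ContinuousAt Complex.Gamma (c + t * I) := by
    apply (Complex.differentiableAt_Gamma _ _).continuousAt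
    intro m h
    have h2 := congrArg Complex.re h
    simp at h2
    have : (0 : ℝ) ≤ m := Nat.cast_nonneg m
    linarith
  exact h1.comp (f := fun t : ℝ => (c : ℂ) + t * I) (by fun_prop)

theorem norm_cpow_line {z : ℂ} (hz : z ≠ 0) (c t : ℝ) :
    ‖z ^ (-(c + t * I : ℂ))‖ = Real.exp (-(c * Real.log ‖z‖)) * Real.exp (z.arg * t) := by
  rw [Complex.cpow_def_of_ne_zero hz, Complex.norm_exp, ← Real.exp_add]
  congr 1
  simp [Complex.mul_re, Complex.log_re, Complex.log_im]
  ring

theorem integrable_line' {c : ℝ} {z : ℂ} (hc : 0 < c) (hz : 0 < z.re) :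
    Integrable (fun t : ℝ => Complex.Gamma (c + t * I) * z ^ (-(c + t * I : ℂ))) := by
  have hz0 : z ≠ 0 := by
    intro h
    rw [h] at hz
    simp at hz
  have hφ : |z.arg| < Real.pi / 2 := Complex.abs_arg_lt_pi_div_two_iff.2 (Or.inl hz)
  have hcont : Continuous (fun t : ℝ => Complex.Gamma (c + t * I) * z ^ (-(c + t * I : ℂ))) := by
    apply (cont_gamma_line hc).mul
    exact Continuous.const_cpow (by fun_prop) (Or.inl hz0)
  obtain ⟨θ, hθ⟩ : ∃ θ : ℝ, θ = (|z.arg| + Real.pi / 2) / 2 := ⟨_, rfl⟩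
  have hθ1 : |z.arg| < θ := by rw [hθ]; linarith
  have hθ2 : θ < Real.pi / 2 := by rw [hθ]; linarith
  have hθ0 : 0 < θ := lt_of_le_of_lt (abs_nonneg _) hθ1
  obtain ⟨C₁, hC₁, h1⟩ := gamma_bd (θ := θ) hc (by rwa [abs_of_pos hθ0])
  obtain ⟨C₂, hC₂, h2⟩ := gamma_bd (θ := -θ) hc (by rwa [abs_neg, abs_of_pos hθ0])
  have hargs := abs_le.1 (le_refl |z.arg|)
  have e1 : IntegrableOn (fun t : ℝ => Complex.Gamma (c + t * I) * z ^ (-(c + t * I : ℂ)))
      (Ioi 0) := by
    have h3 := (integrableOn_exp_mul_Ioi (a := |z.arg| - θ) (by linarith) 0).const_mul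
      (C₁ * Real.exp (-(c * Real.log ‖z‖)))
    refine h3.mono' hcont.aestronglyMeasurable ?_
    rw [ae_restrict_iff' measurableSet_Ioi]
    refine Eventually.of_forall fun t ht => ?_
    have ht' : (0 : ℝ) < t := ht
    rw [norm_mul, norm_cpow_line hz0]
    have h4 : Real.exp (-(θ * t)) * Real.exp (z.arg * t) ≤ Real.exp ((|z.arg| - θ) * t) := by
      rw [← Real.exp_add]
      apply Real.exp_le_exp.2
      have := mul_le_mul_of_nonneg_right hargs.2 ht'.le
      linarith
    calc ‖Complex.Gamma (c + t * I)‖ *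
          (Real.exp (-(c * Real.log ‖z‖)) * Real.exp (z.arg * t))
        ≤ C₁ * Real.exp (-(θ * t)) *
          (Real.exp (-(c * Real.log ‖z‖)) * Real.exp (z.arg * t)) :=
          mul_le_mul_of_nonneg_right (h1 t) (by positivity)
      _ = C₁ * Real.exp (-(c * Real.log ‖z‖)) *
          (Real.exp (-(θ * t)) * Real.exp (z.arg * t)) := by ring
      _ ≤ C₁ * Real.exp (-(c * Real.log ‖z‖)) * Real.exp ((|z.arg| - θ) * t) :=
          mul_le_mul_of_nonneg_left h4 (by positivity)
  have e2 : IntegrableOn (fun t : ℝ => Complex.Gamma (c + t * I) * z ^ (-(c + t * I : ℂ)))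
      (Iic 0) := by
    have h3 := (integrableOn_exp_mul_Iic (a := θ - |z.arg|) (by linarith) 0).const_mul
      (C₂ * Real.exp (-(c * Real.log ‖z‖)))
    refine h3.mono' hcont.aestronglyMeasurable ?_
    rw [ae_restrict_iff' measurableSet_Iic]
    refine Eventually.of_forall fun t ht => ?_
    have ht' : t ≤ 0 := ht
    rw [norm_mul, norm_cpow_line hz0]
    have h4 : Real.exp (-(-θ * t)) * Real.exp (z.arg * t) ≤ Real.exp ((θ - |z.arg|) * t) := by
      rw [← Real.exp_add]
      apply Real.exp_le_exp.2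
      have := mul_le_mul_of_nonpos_right hargs.1 ht'
      linarith
    calc ‖Complex.Gamma (c + t * I)‖ *
          (Real.exp (-(c * Real.log ‖z‖)) * Real.exp (z.arg * t))
        ≤ C₂ * Real.exp (-(-θ * t)) *
          (Real.exp (-(c * Real.log ‖z‖)) * Real.exp (z.arg * t)) :=
          mul_le_mul_of_nonneg_right (h2 t) (by positivity)
      _ = C₂ * Real.exp (-(c * Real.log ‖z‖)) *
          (Real.exp (-(-θ * t)) * Real.exp (z.arg * t)) := by ring
      _ ≤ C₂ * Real.exp (-(c * Real.log ‖z‖)) * Real.exp ((θ - |z.arg|) * t) :=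
          mul_le_mul_of_nonneg_left h4 (by positivity)
  have h5 := e2.union e1
  rw [Iic_union_Ioi, integrableOn_univ] at h5
  exact h5

/-- GAMI -/
theorem gami : GAMIStatement := by
  intro c z hc hz
  have hint := integrable_line' hc hz
  refine ⟨hint, ?_⟩
  have hz0 : z ≠ 0 := by
    intro h
    rw [h] at hz
    simp at hz
  have hpi := Real.pi_pos
  obtain ⟨f, hf⟩ : ∃ f : ℝ → ℂ, f = fun v : ℝ => cexp ((c : ℂ) * v - z * Real.exp v) := ⟨_, rfl⟩
  have hfi : Integrable f := by
    rw [hf]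
    exact integrable_line (s := (c : ℂ)) (by simpa using hc) hz
  have hfc : Continuous f := by
    rw [hf]
    exact continuous_line (c : ℂ) z
  have hF : ∀ w : ℝ, 𝓕 f w = (fun t : ℝ => Complex.Gamma (c + t * I) * z ^ (-(c + t * I : ℂ)))
      ((-(2 * Real.pi)) * w) := by
    intro w
    rw [Real.fourier_real_eq_integral_exp_smul]
    have h1 := gammaLine (s := c + ((-(2 * Real.pi) * w : ℝ) : ℂ) * I) (a := z)
      (by simpa using hc) hz
    have h2 : z ^ (-(c + ((-(2 * Real.pi) * w : ℝ) : ℂ) * I : ℂ)) =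
        cexp (-((c + ((-(2 * Real.pi) * w : ℝ) : ℂ) * I) * Complex.log z)) := by
      rw [Complex.cpow_def_of_ne_zero hz0]
      congr 1
      ring
    show _ = Complex.Gamma (c + ((-(2 * Real.pi) * w : ℝ) : ℂ) * I) *
      z ^ (-(c + ((-(2 * Real.pi) * w : ℝ) : ℂ) * I : ℂ))
    rw [h2, mul_comm (Complex.Gamma _) _, ← h1]
    congr 1
    funext v
    rw [hf, smul_eq_mul, ← Complex.exp_add]
    congr 1
    push_cast
    ring
  have hFi : Integrable (𝓕 f) := by
    have h1 := hint.comp_mul_left' (R := -(2 * Real.pi)) (by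
      have : 0 < 2 * Real.pi := by positivity
      linarith [this] |> ne_of_lt)
    refine h1.congr (Eventually.of_forall fun w => (hF w).symm)
  have h1 := hfc.fourierInv_fourier_eq hfi hFi
  have h2 := congrFun h1 0
  have h3 : f 0 = cexp (-z) := by
    rw [hf]
    simp
  rw [h3] at h2
  have h4 : 𝓕⁻ (𝓕 f) 0 = ∫ w : ℝ, 𝓕 f w := by
    rw [Real.fourierInv_eq']
    simp
  rw [← h2, h4]
  unfold VI
  have h5 : ∫ w : ℝ, 𝓕 f w = ∫ w : ℝ, (fun t : ℝ => Complex.Gamma (c + t * I) *
      z ^ (-(c + t * I : ℂ))) ((-(2 * Real.pi)) * w) := by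
    congr 1
    funext w
    exact hF w
  have h6 := Measure.integral_comp_mul_left (fun t : ℝ => Complex.Gamma (c + t * I) *
      z ^ (-(c + t * I : ℂ))) (-(2 * Real.pi))
  rw [h5, h6, abs_inv, abs_neg, abs_of_pos (by positivity), Complex.real_smul]
  push_cast
  rw [one_div]

end Pool.Agent.Lib.MP_6bc78b_nt.GP.H82
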